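import Mathlib

/-!
# Moving one point of the Cantor space to another

Let `E` be an equivalence relation on the Cantor space such that any two `E`-equivalent points are
exchanged by a homeomorphism of the Cantor space which moves every point to an equivalent one. If
the classes of `x` and `y` are dense, then there is a homeomorphism `h` of the Cantor space with
`h x = y` which moves every point other than `x` to an equivalent one. So every `E`-invariant set of
points with dense classes is a homogeneous space.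
-/

set_option autoImplicit false

open Set Topology

namespace Pool.Agent.Q180.Homog

/-- The Cantor space. -/
abbrev C : Type := ℕ → Bool

/-- The basic clopen set. -/
def cyl (x : C) (n : ℕ) : Set C := {z | ∀ i < n, z i = x i}

theorem mem_cyl_self (x : C) (n : ℕ) : x ∈ cyl x n := fun _ _ => rfl

theorem cyl_anti (x : C) {m n : ℕ} (h : m ≤ n) : cyl x n ⊆ cyl x m :=
  fun _ hz i hi => hz i (hi.trans_le h)

theorem isClopen_cyl (x : C) (n : ℕ) : IsClopen (cyl x n) := by
  have h : cyl x n = ⋂ i ∈ Finset.range n, (fun z : C => z i) ⁻¹' {x i} := by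
    ext z
    simp [cyl]
  rw [h]
  exact isClopen_biInter_finset fun i _ => (isClopen_discrete {x i}).preimage (continuous_apply i)

theorem exists_cyl {O : Set C} (hO : IsOpen O) {x : C} (hx : x ∈ O) : ∃ n, cyl x n ⊆ O := by
  obtain ⟨F, V, hV, hsub⟩ := isOpen_pi_iff.1 hO x hx
  obtain ⟨b, hb⟩ := F.finite_toSet.bddAbove
  refine ⟨b + 1, fun y hy => hsub fun i hi => ?_⟩
  rw [hy i (Nat.lt_succ_of_le (hb hi))]
  exact (hV i hi).2

theorem exists_notMem_cyl {x z : C} (h : z ≠ x) : ∃ n, z ∉ cyl x n := by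
  by_contra! h'
  exact h (funext fun i => h' (i + 1) i (Nat.lt_succ_self i))

theorem exists_ne {O : Set C} (hO : IsOpen O) {x : C} (hx : x ∈ O) : ∃ z ∈ O, z ≠ x := by
  obtain ⟨n, hn⟩ := exists_cyl hO hx
  refine ⟨fun i => if i < n then x i else !(x i), hn fun i hi => by simp [hi], fun h => ?_⟩
  have := congrFun h n
  simp at this

/-! ### Exchanging a clopen set and its image -/

open Classical in
/-- The map exchanging the points of `A` with their images under `g`. -/
noncomputable def sw (g : C ≃ₜ C) (A : Set C) (z : C) : C :=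
  if z ∈ A then g z else if g.symm z ∈ A then g.symm z else z

theorem sw_of_mem {g : C ≃ₜ C} {A : Set C} {z : C} (h : z ∈ A) : sw g A z = g z := by
  unfold sw
  rw [if_pos h]

theorem sw_of_mem' {g : C ≃ₜ C} {A : Set C} {z : C} (h : z ∉ A) (h' : g.symm z ∈ A) :
    sw g A z = g.symm z := by
  unfold sw
  rw [if_neg h, if_pos h']

theorem sw_of_notMem {g : C ≃ₜ C} {A : Set C} {z : C} (h : z ∉ A) (h' : g.symm z ∉ A) :
    sw g A z = z := by
  unfold sw
  rw [if_neg h, if_neg h']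

theorem sw_sw {g : C ≃ₜ C} {A : Set C} (hd : ∀ z ∈ A, g z ∉ A) (z : C) :
    sw g A (sw g A z) = z := by
  by_cases h : z ∈ A
  · rw [sw_of_mem h, sw_of_mem' (hd z h) (by simpa using h), g.symm_apply_apply]
  · by_cases h' : g.symm z ∈ A
    · rw [sw_of_mem' h h', sw_of_mem h', g.apply_symm_apply]
    · rw [sw_of_notMem h h', sw_of_notMem h h']

theorem continuous_sw (g : C ≃ₜ C) {A : Set C} (hA : IsClopen A) : Continuous (sw g A) := by
  classical
  unfold sw
  refine Continuous.if ?_ g.continuous (Continuous.if ?_ g.symm.continuous continuous_id)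
  · intro a ha
    rw [show {a | a ∈ A} = A from rfl, hA.frontier_eq] at ha
    exact ha.elim
  · intro a ha
    rw [show {a | g.symm a ∈ A} = g.symm ⁻¹' A from rfl,
      (hA.preimage g.symm.continuous).frontier_eq] at ha
    exact ha.elim

/-- The exchanging homeomorphism. -/
noncomputable def swHomeo (g : C ≃ₜ C) {A : Set C} (hA : IsClopen A) (hd : ∀ z ∈ A, g z ∉ A) :
    C ≃ₜ C where
  toFun := sw g A
  invFun := sw g A
  left_inv := sw_sw hd
  right_inv := sw_sw hd
  continuous_toFun := continuous_sw g hA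
  continuous_invFun := continuous_sw g hA

theorem swHomeo_apply {g : C ≃ₜ C} {A : Set C} (hA : IsClopen A) (hd : ∀ z ∈ A, g z ∉ A) (z : C) :
    swHomeo g hA hd z = sw g A z := rfl

/-! ### The main construction -/

section

variable {E : C → C → Prop} (hE : Equivalence E)
  (het : ∀ z w, E z w → ∃ g : C ≃ₜ C, g z = w ∧ ∀ u, E u (g u))

include hE in
theorem E_sw {g : C ≃ₜ C} (hg : ∀ u, E u (g u)) (A : Set C) (z : C) : E z (sw g A z) := by
  by_cases h : z ∈ A
  · rw [sw_of_mem h]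
    exact hg z
  · by_cases h' : g.symm z ∈ A
    · rw [sw_of_mem' h h']
      have := hg (g.symm z)
      rw [g.apply_symm_apply] at this
      exact hE.symm this
    · rw [sw_of_notMem h h']
      exact hE.refl z

include hE het in
theorem step {x y : C} (hx : Dense {z | E x z}) (hy : Dense {z | E y z}) (H : C ≃ₜ C)
    (hH : ∀ z, E z (H z)) {V : Set C} (hV : IsClopen V) (hxV : H x ∈ V) (hyV : y ∈ V)
    (hne : H x ≠ y) (n : ℕ) :
    ∃ (H' : C ≃ₜ C) (V' : Set C), (∀ z, E z (H' z)) ∧ IsClopen V' ∧ H' x ∈ V' ∧ y ∈ V' ∧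
      H' x ≠ y ∧ V' ⊆ V ∧ (∀ z, H z ∉ V → H' z = H z) ∧ (∀ z, H z ∈ V → H' z ∈ V) ∧
      V' ⊆ cyl y n ∧ ∀ z, H' z ∈ V' → z ∈ cyl x n := by
  -- the neighbourhoods `W` of `H x` and `V₁` of `y`
  have hO1 : IsOpen (V ∩ H.symm ⁻¹' cyl x n ∩ {y}ᶜ) :=
    (hV.2.inter ((isClopen_cyl x n).2.preimage H.symm.continuous)).inter
      isClosed_singleton.isOpen_compl
  obtain ⟨k, hk⟩ := exists_cyl hO1 (x := H x) ⟨⟨hxV, by
    change H.symm (H x) ∈ cyl x n
    rw [H.symm_apply_apply]
    exact mem_cyl_self x n⟩, hne⟩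
  have hW : IsClopen (cyl (H x) k) := isClopen_cyl _ _
  have hyW : y ∉ cyl (H x) k := fun h => (hk h).2 rfl
  have hO2 : IsOpen (V ∩ cyl y n ∩ (cyl (H x) k)ᶜ) :=
    (hV.2.inter (isClopen_cyl y n).2).inter hW.1.isOpen_compl
  obtain ⟨l, hl⟩ := exists_cyl hO2 (x := y) ⟨⟨hyV, mem_cyl_self y n⟩, hyW⟩
  have hV1 : IsClopen (cyl y l) := isClopen_cyl _ _
  have hdis : ∀ z ∈ cyl y l, z ∉ cyl (H x) k := fun z hz => (hl hz).2
  -- the points `b` and `c`
  obtain ⟨b0, hb0, hb0y⟩ := exists_ne hV1.2 (mem_cyl_self y l)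
  obtain ⟨b, hb, hEb⟩ := hx.inter_open_nonempty (cyl y l ∩ {y}ᶜ)
    (hV1.2.inter isClosed_singleton.isOpen_compl) ⟨b0, hb0, hb0y⟩
  obtain ⟨c0, hc0, hc0x⟩ := exists_ne hW.2 (mem_cyl_self (H x) k)
  obtain ⟨c, hc, hEc⟩ := hy.inter_open_nonempty (cyl (H x) k ∩ {H x}ᶜ)
    (hW.2.inter isClosed_singleton.isOpen_compl) ⟨c0, hc0, hc0x⟩
  have hEb' : E (H x) b := hE.trans (hE.symm (hH x)) hEb
  obtain ⟨g₁, hg₁, hg₁E⟩ := het _ _ hEb'
  obtain ⟨g₂, hg₂, hg₂E⟩ := het _ _ hEc
  -- the clopen sets `A` and `B`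
  have hO3 : IsOpen (cyl (H x) k ∩ {c}ᶜ ∩ g₁ ⁻¹' (cyl y l ∩ {y}ᶜ)) :=
    (hW.2.inter isClosed_singleton.isOpen_compl).inter
      ((hV1.2.inter isClosed_singleton.isOpen_compl).preimage g₁.continuous)
  obtain ⟨r, hr⟩ := exists_cyl hO3 (x := H x) ⟨⟨mem_cyl_self _ _, fun h => hc.2 h.symm⟩, by
    change g₁ (H x) ∈ cyl y l ∩ {y}ᶜ
    rw [hg₁]
    exact hb⟩
  have hA : IsClopen (cyl (H x) r) := isClopen_cyl _ _
  have hO4 : IsOpen (cyl y l ∩ (g₁.symm ⁻¹' cyl (H x) r)ᶜ ∩
      g₂ ⁻¹' (cyl (H x) k ∩ (cyl (H x) r)ᶜ)) :=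
    (hV1.2.inter (hA.1.preimage g₁.symm.continuous).isOpen_compl).inter
      ((hW.2.inter hA.1.isOpen_compl).preimage g₂.continuous)
  obtain ⟨t, ht⟩ := exists_cyl hO4 (x := y) ⟨⟨mem_cyl_self _ _, fun h => by
      have h1 : g₁.symm y ∈ cyl (H x) r := h
      have h2 := (hr h1).2.2
      rw [g₁.apply_symm_apply] at h2
      exact h2 rfl⟩, by
    change g₂ y ∈ cyl (H x) k ∩ (cyl (H x) r)ᶜ
    rw [hg₂]
    exact ⟨hc.1, fun h => (hr h).1.2 rfl⟩⟩
  have hB : IsClopen (cyl y t) := isClopen_cyl _ _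
  have hdA : ∀ z ∈ cyl (H x) r, g₁ z ∉ cyl (H x) r := fun z hz h =>
    hdis _ (hr hz).2.1 (hr h).1.1
  have hdB : ∀ z ∈ cyl y t, g₂ z ∉ cyl y t := fun z hz h => hdis _ (ht h).1.1 (ht hz).2.1
  let s₁ := swHomeo g₁ hA hdA
  let s₂ := swHomeo g₂ hB hdB
  -- supports
  have hs₁ : ∀ z ∉ V, s₁ z = z := fun z hz => by
    refine sw_of_notMem (fun h => hz (hk (hr h).1.1).1.1) fun h => hz ?_
    have h1 := (hr h).2.1
    rw [g₁.apply_symm_apply] at h1
    exact (hl h1).1.1
  have hs₂ : ∀ z ∉ V, s₂ z = z := fun z hz => by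
    refine sw_of_notMem (fun h => hz (hl (ht h).1.1).1.1) fun h => hz ?_
    have h1 := (ht h).2.1
    rw [g₂.apply_symm_apply] at h1
    exact (hk h1).1.1
  have hs₁' : ∀ z ∈ V, s₁ z ∈ V := by
    intro z hz
    by_contra h
    have h1 : s₁ (s₁ z) = s₁ z := hs₁ _ h
    rw [s₁.injective h1] at h
    exact h hz
  have hs₂' : ∀ z ∈ V, s₂ z ∈ V := by
    intro z hz
    by_contra h
    have h1 : s₂ (s₂ z) = s₂ z := hs₂ _ h
    rw [s₂.injective h1] at h
    exact h hz
  -- values
  have hv1 : s₁ (s₂ (H x)) = b := by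
    have h1 : s₂ (H x) = H x := by
      refine sw_of_notMem (fun h => hdis _ (ht h).1.1 (mem_cyl_self _ _)) fun h => ?_
      have h1 := (ht h).2.2
      rw [g₂.apply_symm_apply] at h1
      exact h1 (mem_cyl_self _ _)
    rw [h1]
    exact (sw_of_mem (mem_cyl_self _ _)).trans hg₁
  have hv2 : s₁ (s₂ c) = y := by
    have h1 : s₂ c = y := by
      have h2 : g₂.symm c = y := by rw [← hg₂, g₂.symm_apply_apply]
      have h3 : c ∉ cyl y t := fun h => hdis _ (ht h).1.1 hc.1
      exact (sw_of_mem' h3 (by rw [h2]; exact mem_cyl_self _ _)).trans h2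
    rw [h1]
    refine sw_of_notMem (fun h => hyW (hr h).1.1) fun h => ?_
    have h2 := (hr h).2.2
    rw [g₁.apply_symm_apply] at h2
    exact h2 rfl
  let H' : C ≃ₜ C := H.trans (s₂.trans s₁)
  have hH' : ∀ z, H' z = s₁ (s₂ (H z)) := fun z => rfl
  -- the new neighbourhood
  have hO5 : IsOpen (cyl y l ∩ H'.symm ⁻¹' cyl x n) :=
    hV1.2.inter ((isClopen_cyl x n).2.preimage H'.symm.continuous)
  have hbO : b ∈ cyl y l ∩ H'.symm ⁻¹' cyl x n := by
    refine ⟨hb.1, ?_⟩
    change H'.symm b ∈ cyl x n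
    have : H' x = b := hv1
    rw [← this, H'.symm_apply_apply]
    exact mem_cyl_self _ _
  have hyO : y ∈ cyl y l ∩ H'.symm ⁻¹' cyl x n := by
    refine ⟨mem_cyl_self _ _, ?_⟩
    change H'.symm y ∈ cyl x n
    have : H' (H.symm c) = y := by rw [hH', H.apply_symm_apply, hv2]
    rw [← this, H'.symm_apply_apply]
    exact (hk hc.1).1.2
  obtain ⟨p, hp⟩ := exists_cyl hO5 hbO
  obtain ⟨q, hq⟩ := exists_cyl hO5 hyO
  have hsub : cyl b p ∪ cyl y q ⊆ cyl y l ∩ H'.symm ⁻¹' cyl x n := union_subset hp hq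
  refine ⟨H', cyl b p ∪ cyl y q, ?_, (isClopen_cyl _ _).union (isClopen_cyl _ _), ?_,
    Or.inr (mem_cyl_self _ _), ?_, fun z hz => (hl (hsub hz).1).1.1, ?_, ?_,
    fun z hz => (hl (hsub hz).1).1.2, ?_⟩
  · intro z
    exact hE.trans (hH z) (hE.trans (E_sw hE hg₂E _ _) (E_sw hE hg₁E _ _))
  · rw [hH', hv1]
    exact Or.inl (mem_cyl_self _ _)
  · rw [hH', hv1]
    exact hb.2
  · intro z hz
    rw [hH', hs₂ _ hz, hs₁ _ hz]
  · intro z hz
    rw [hH']
    exact hs₁' _ (hs₂' _ hz)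
  · intro z hz
    have h1 := (hsub hz).2
    change H'.symm (H' z) ∈ cyl x n at h1
    rw [H'.symm_apply_apply] at h1
    exact h1

include hE het in
/-- The homeomorphism moving `x` to `y`. -/
theorem exists_homeo {x y : C} (hx : Dense {z | E x z}) (hy : Dense {z | E y z}) :
    ∃ h : C ≃ₜ C, h x = y ∧ ∀ z ≠ x, E z (h z) := by
  classical
  by_cases hxy : x = y
  · exact ⟨Homeomorph.refl C, hxy, fun z _ => hE.refl z⟩
  let S : Type := {p : (C ≃ₜ C) × Set C // (∀ z, E z (p.1 z)) ∧ IsClopen p.2 ∧ p.1 x ∈ p.2 ∧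
    y ∈ p.2 ∧ p.1 x ≠ y}
  have hstep : ∀ (n : ℕ) (s : S), ∃ s' : S, s'.1.2 ⊆ s.1.2 ∧
      (∀ z, s.1.1 z ∉ s.1.2 → s'.1.1 z = s.1.1 z) ∧ (∀ z, s.1.1 z ∈ s.1.2 → s'.1.1 z ∈ s.1.2) ∧
      s'.1.2 ⊆ cyl y n ∧ ∀ z, s'.1.1 z ∈ s'.1.2 → z ∈ cyl x n := by
    rintro n ⟨⟨H, V⟩, h1, h2, h3, h4, h5⟩
    obtain ⟨H', V', h6, h7, h8, h9, h10, h11⟩ := step hE het hx hy H h1 h2 h3 h4 h5 n
    exact ⟨⟨⟨H', V'⟩, h6, h7, h8, h9, h10⟩, h11⟩
  choose F hF1 hF2 hF3 hF4 hF5 using hstep
  let s : ℕ → S := fun n => Nat.rec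
    ⟨⟨Homeomorph.refl C, univ⟩, hE.refl, isClopen_univ, mem_univ _, mem_univ _, hxy⟩
    (fun n s => F n s) n
  have hs : ∀ n, s (n + 1) = F n (s n) := fun n => rfl
  let H : ℕ → (C ≃ₜ C) := fun n => (s n).1.1
  let V : ℕ → Set C := fun n => (s n).1.2
  have hEH : ∀ n z, E z (H n z) := fun n => (s n).2.1
  have hyV : ∀ n, y ∈ V n := fun n => (s n).2.2.2.2.1
  have hxV : ∀ n, H n x ∈ V n := fun n => (s n).2.2.2.1
  have hVc : ∀ n, IsClopen (V n) := fun n => (s n).2.2.1
  have hV1 : ∀ n, V (n + 1) ⊆ V n := fun n => hF1 n (s n)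
  have hV : Antitone V := antitone_nat_of_succ_le hV1
  have h2 : ∀ n z, H n z ∉ V n → H (n + 1) z = H n z := fun n => hF2 n (s n)
  have h3 : ∀ n z, H n z ∈ V n → H (n + 1) z ∈ V n := fun n => hF3 n (s n)
  have h4 : ∀ n, V (n + 1) ⊆ cyl y n := fun n => hF4 n (s n)
  have h5 : ∀ n z, H (n + 1) z ∈ V (n + 1) → z ∈ cyl x n := fun n => hF5 n (s n)
  -- stabilization
  have hstab : ∀ n m z, n ≤ m → H n z ∉ V n → H m z = H n z := by
    intro n m z hnm hz
    induction m, hnm using Nat.le_induction with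
    | base => rfl
    | succ m hnm ih =>
      rw [h2 m z, ih]
      rw [ih]
      exact fun h => hz (hV hnm h)
  have hin : ∀ n m z, n ≤ m → H n z ∈ V n → H m z ∈ V n := by
    intro n m z hnm hz
    induction m, hnm using Nat.le_induction with
    | base => exact hz
    | succ m hnm ih =>
      by_cases h : H m z ∈ V m
      · exact hV hnm (h3 m z h)
      · rw [h2 m z h]
        exact ih
  have hout : ∀ z ≠ x, ∃ n, H n z ∉ V n := by
    intro z hz
    obtain ⟨n, hn⟩ := exists_notMem_cyl hz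
    exact ⟨n + 1, fun h => hn (h5 n z h)⟩
  -- the limit
  let h : C → C := fun z => if hz : z = x then y else H (Nat.find (hout z hz)) z
  have hhx : h x = y := by simp [h]
  have hxn : ∀ n z, H n z ∉ V n → z ≠ x := fun n z hz hzx => hz (hzx ▸ hxV n)
  have hh : ∀ n z, H n z ∉ V n → h z = H n z := by
    intro n z hz
    have hzx := hxn n z hz
    have h6 : h z = H (Nat.find (hout z hzx)) z := by
      simp only [h]
      rw [dif_neg hzx]
    rw [h6]
    exact (hstab _ n z (Nat.find_min' _ hz) (Nat.find_spec (hout z hzx))).symm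
  have hh' : ∀ n z, H n z ∈ V n → h z ∈ V n := by
    intro n z hz
    by_cases hzx : z = x
    · rw [hzx, hhx]
      exact hyV n
    · obtain ⟨m, hm⟩ := hout z hzx
      rcases le_total n m with hnm | hnm
      · rw [hh m z hm]
        exact hin n m z hnm hz
      · have h7 := hstab m n z hnm hm
        rw [h7] at hz
        exact absurd (hV hnm hz) hm
  have hcont : Continuous h := by
    rw [continuous_iff_continuousAt]
    intro z
    by_cases hzx : z = x
    · subst hzx
      rw [ContinuousAt, hhx]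
      intro O hO
      obtain ⟨O', hO'O, hO', hyO'⟩ := mem_nhds_iff.1 hO
      obtain ⟨n, hn⟩ := exists_cyl hO' hyO'
      have h8 : (H (n + 1)) ⁻¹' V (n + 1) ∈ 𝓝 z :=
        ((hVc (n + 1)).2.preimage (H (n + 1)).continuous).mem_nhds (hxV (n + 1))
      refine Filter.mem_map.2 (Filter.mem_of_superset h8 fun w hw => ?_)
      exact hO'O (hn (h4 n (hh' (n + 1) w hw)))
    · obtain ⟨n, hn⟩ := hout z hzx
      have h8 : (H n) ⁻¹' (V n)ᶜ ∈ 𝓝 z :=
        ((hVc n).1.isOpen_compl.preimage (H n).continuous).mem_nhds hn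
      have h9 : h =ᶠ[𝓝 z] H n := by
        filter_upwards [h8] with w hw
        exact hh n w hw
      exact ((H n).continuous.continuousAt).congr h9.symm
  have hinj : Function.Injective h := by
    have hne : ∀ z ≠ x, h z ≠ y := by
      intro z hz hzy
      obtain ⟨n, hn⟩ := hout z hz
      rw [hh n z hn] at hzy
      exact hn (hzy ▸ hyV n)
    intro z w hzw
    by_cases hz : z = x
    · by_cases hw : w = x
      · rw [hz, hw]
      · rw [hz, hhx] at hzw
        exact absurd hzw.symm (hne w hw)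
    · by_cases hw : w = x
      · rw [hw, hhx] at hzw
        exact absurd hzw (hne z hz)
      · obtain ⟨n, hn⟩ := hout z hz
        obtain ⟨m, hm⟩ := hout w hw
        have h10 : H (max n m) z = H n z := hstab _ _ z (le_max_left _ _) hn
        have h11 : H (max n m) w = H m w := hstab _ _ w (le_max_right _ _) hm
        rw [hh n z hn, hh m w hm, ← h10, ← h11] at hzw
        exact (H (max n m)).injective hzw
  have hsurj : Function.Surjective h := by
    intro w
    by_cases hw : w = y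
    · exact ⟨x, by rw [hhx, hw]⟩
    · obtain ⟨n, hn⟩ := exists_notMem_cyl hw
      have h12 : w ∉ V (n + 1) := fun h => hn (h4 n h)
      refine ⟨(H (n + 1)).symm w, ?_⟩
      rw [hh (n + 1) _ (by rwa [(H (n + 1)).apply_symm_apply]), (H (n + 1)).apply_symm_apply]
  let e : C ≃ C := Equiv.ofBijective h ⟨hinj, hsurj⟩
  have he : Continuous e := hcont
  refine ⟨he.homeoOfEquivCompactToT2, hhx, fun z hz => ?_⟩
  obtain ⟨n, hn⟩ := hout z hz
  have h13 : he.homeoOfEquivCompactToT2 z = H n z := hh n z hn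
  rw [h13]
  exact hEH n z

end

/-- A space `Y` is homogeneous if every point can be moved to every other point by a homeomorphism
of `Y` onto itself. -/
def Homogeneous (Y : Type) [TopologicalSpace Y] : Prop :=
  ∀ x y : Y, ∃ h : Y ≃ₜ Y, h x = y

/-- `E`-invariant sets of points with dense classes are homogeneous. -/
theorem homogeneous {E : C → C → Prop} (hE : Equivalence E)
    (het : ∀ z w, E z w → ∃ g : C ≃ₜ C, g z = w ∧ ∀ u, E u (g u)) {X : Set C}
    (hX : ∀ x ∈ X, ∀ z, E x z → z ∈ X) (hd : ∀ x ∈ X, Dense {z | E x z}) : Homogeneous X := by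
  intro x y
  obtain ⟨h, hxy, hh⟩ := exists_homeo hE het (hd x x.2) (hd y y.2)
  have h1 : ∀ z ∈ X, h z ∈ X := by
    intro z hz
    by_cases hzx : z = x
    · rw [hzx, hxy]
      exact y.2
    · exact hX z hz _ (hh z hzx)
  have h2 : ∀ z ∈ X, h.symm z ∈ X := by
    intro z hz
    by_cases hzx : h.symm z = x
    · rw [hzx]
      exact x.2
    · have := hh _ hzx
      rw [h.apply_symm_apply] at this
      exact hX z hz _ (hE.symm this)
  refine ⟨{ toFun := fun z => ⟨h z.1, h1 _ z.2⟩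
            invFun := fun z => ⟨h.symm z.1, h2 _ z.2⟩
            left_inv := fun z => Subtype.ext (by simp)
            right_inv := fun z => Subtype.ext (by simp)
            continuous_toFun := ?_
            continuous_invFun := ?_ }, Subtype.ext hxy⟩
  · exact (h.continuous.comp continuous_subtype_val).subtype_mk _
  · exact (h.symm.continuous.comp continuous_subtype_val).subtype_mk _

end Pool.Agent.Q180.Homog
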