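import Pool.Agent.W684.FM.Ambient

/-!
# Pseudointersections from Martin's axiom

Martin's axiom for `κ` dense sets implies that every family of at most `κ` subsets of `ℕ` with
infinite finite intersections has an infinite pseudointersection.
-/

set_option autoImplicit false

namespace Pool.Agent.Q180.Pseudo

open Cardinal Set
open Pool.Agent.W684 Pool.Agent.W684.FM

/-- The conditions: a finite set and a finite list of promises. -/
structure Cond {I : Type} (A : I → Set ℕ) : Type where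
  /-- the working part -/
  s : Finset ℕ
  /-- the promises -/
  F : Finset I

variable {I : Type} {A : I → Set ℕ}

instance : Preorder (Cond A) where
  le q p := p.s ⊆ q.s ∧ p.F ⊆ q.F ∧ ∀ n ∈ q.s, n ∉ p.s → ∀ i ∈ p.F, n ∈ A i
  le_refl p := ⟨subset_rfl, subset_rfl, fun n hn hn' => absurd hn hn'⟩
  le_trans r q p h1 h2 := ⟨h2.1.trans h1.1, h2.2.1.trans h1.2.1, fun n hn hn' i hi => by
    by_cases h : n ∈ q.s
    · exact h2.2.2 n h hn' i hi
    · exact h1.2.2 n hn h i (h2.2.1 hi)⟩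

theorem le_def {p q : Cond A} : q ≤ p ↔ p.s ⊆ q.s ∧ p.F ⊆ q.F ∧
    ∀ n ∈ q.s, n ∉ p.s → ∀ i ∈ p.F, n ∈ A i := Iff.rfl

instance : Nonempty (Cond A) := ⟨⟨∅, ∅⟩⟩

theorem ccc : IsCCC (Cond A) := by
  classical
  intro 𝒜 h𝒜
  refine Set.countable_of_injective_of_countable_image (f := fun p : Cond A => p.s) ?_
    (Set.to_countable _)
  intro p hp q hq hpq
  by_contra hne
  refine h𝒜 p hp q hq hne ⟨⟨p.s, p.F ∪ q.F⟩, ?_, ?_⟩
  · exact ⟨subset_rfl, Finset.subset_union_left, fun n hn hn' => absurd hn hn'⟩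
  · have hpq' : p.s = q.s := hpq
    refine ⟨hpq' ▸ subset_rfl, Finset.subset_union_right, fun n hn hn' => absurd ?_ hn'⟩
    rw [← hpq']
    exact hn

/-- Every family of at most `κ` sets with infinite finite intersections has an infinite
pseudointersection, if Martin's axiom for `κ` dense sets holds. -/
theorem exists_pseudo {κ : Cardinal.{0}} (hκ : ℵ₀ ≤ κ) (hMA : MartinAxiomCard κ)
    (hI : #I ≤ κ) (A : I → Set ℕ) (hA : ∀ F : Finset I, (⋂ i ∈ F, A i).Infinite) :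
    ∃ B : Set ℕ, B.Infinite ∧ ∀ i, (B \ A i).Finite := by
  classical
  let D : I → Set (Cond A) := fun i => {p | i ∈ p.F}
  let E : ℕ → Set (Cond A) := fun n => {p | ∃ m ∈ p.s, n ≤ m}
  have hcard : #(range D ∪ range E : Set (Set (Cond A))) ≤ κ := by
    refine (mk_union_le _ _).trans ?_
    refine (add_le_add (mk_range_le.trans hI)
      ((mk_range_le.trans (le_of_eq mk_nat)).trans hκ)).trans ?_
    rw [add_eq_self hκ]
  obtain ⟨G, hne, hup, hdir, hG⟩ := hMA (Cond A) ccc (range D ∪ range E) hcard (by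
    rintro _ (⟨i, rfl⟩ | ⟨n, rfl⟩) p
    · refine ⟨⟨p.s, insert i p.F⟩, Finset.mem_insert_self _ _, ?_⟩
      exact ⟨subset_rfl, Finset.subset_insert _ _, fun n hn hn' => absurd hn hn'⟩
    · obtain ⟨m, hm, hmn⟩ := (hA p.F).exists_gt n
      refine ⟨⟨insert m p.s, p.F⟩, ⟨m, Finset.mem_insert_self _ _, hmn.le⟩, ?_⟩
      refine ⟨Finset.subset_insert _ _, subset_rfl, fun k hk hk' i hi => ?_⟩
      rcases Finset.mem_insert.1 hk with rfl | h
      · exact mem_iInter₂.1 hm i hi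
      · exact absurd h hk')
  refine ⟨⋃ p ∈ G, (p.s : Set ℕ), ?_, fun i => ?_⟩
  · refine Set.infinite_of_not_bddAbove ?_
    rintro ⟨b, hb⟩
    obtain ⟨p, hpG, m, hm, hbm⟩ := hG (E (b + 1)) (Or.inr ⟨_, rfl⟩)
    have := hb (mem_iUnion₂.2 ⟨p, hpG, Finset.mem_coe.2 hm⟩)
    omega
  · obtain ⟨p, hpG, hp⟩ := hG (D i) (Or.inl ⟨_, rfl⟩)
    refine p.s.finite_toSet.subset ?_
    rintro n ⟨hn, hni⟩
    obtain ⟨q, hqG, hnq⟩ := mem_iUnion₂.1 hn
    obtain ⟨r, -, hrp, hrq⟩ := hdir p hpG q hqG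
    by_contra hnp
    exact hni (hrp.2.2 n (hrq.1 (Finset.mem_coe.1 hnq)) hnp i hp)

end Pool.Agent.Q180.Pseudo
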