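import Mathlib

/-!
# Canonical clopen selectors on spaces of final subsets

For a well-founded poset `P` without infinite antichains the compact scattered space `FS(P)` of
final subsets of `P` has a canonical clopen selector. The proof is based on a modularity property
of the Cantor-Bendixson height on the lattice `FS(P)`.
-/

set_option autoImplicit false

open Set Filter Topology

universe u

namespace Pool.Agent.Q180.Skula

/-- The final subsets of `P`, as points of the product `{0,1}^P` (`Bool` is discrete). -/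
def FS (P : Type u) [PartialOrder P] : Type u :=
  {f : P → Bool // ∀ x y : P, x ≤ y → f x = true → f y = true}

/-- `FS(P)` carries the subspace topology of the product topology. -/
instance FS.topology (P : Type u) [PartialOrder P] : TopologicalSpace (FS P) :=
  instTopologicalSpaceSubtype

/-- The Cantor-Bendixson derivatives: a point is in the derivative of index `α` if for every
`β < α` it is a non-isolated point of the derivative of index `β`. -/
def CB (X : Type u) [TopologicalSpace X] (α : Ordinal.{u}) : Set X :=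
  {x | ∀ β, β < α → x ∈ CB X β ∧ ∀ U : Set X, IsOpen U → x ∈ U → ∃ y ∈ U, y ≠ x ∧ y ∈ CB X β}
termination_by α

/-- The subspace `U` is compact and its last nonempty Cantor-Bendixson derivative is `{x}`. -/
def Unitary {X : Type u} [TopologicalSpace X] (U : Set X) (x : X) : Prop :=
  IsCompact U ∧ ∃ (h : x ∈ U) (α : Ordinal.{u}), CB U α = {⟨x, h⟩} ∧ CB U (Order.succ α) = ∅

/-- The space `X` has a canonical clopen selector. -/
def CanonicallySkula (X : Type u) [TopologicalSpace X] : Prop :=
  ∃ U : X → Set X, (∀ x, IsClopen (U x)) ∧ (∀ x, x ∈ U x) ∧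
    (∀ x y, x ≠ y → x ∉ U y ∨ y ∉ U x) ∧ (∀ x y, y ∈ U x → U y ⊆ U x) ∧
    ∀ x, Unitary (U x) x

/-! ### Generalities on derivatives -/

section General

variable {X : Type u} [TopologicalSpace X]

theorem mem_CB {α : Ordinal.{u}} {x : X} : x ∈ CB X α ↔ ∀ β, β < α → x ∈ CB X β ∧
    ∀ U : Set X, IsOpen U → x ∈ U → ∃ y ∈ U, y ≠ x ∧ y ∈ CB X β := by
  rw [CB]
  exact Iff.rfl

theorem CB_anti {α β : Ordinal.{u}} (h : α ≤ β) : CB X β ⊆ CB X α := by
  intro x hx
  rcases h.eq_or_lt with rfl | h
  · exact hx
  · exact (mem_CB.1 hx α h).1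

theorem mem_CB_succ {α : Ordinal.{u}} {x : X} : x ∈ CB X (Order.succ α) ↔ x ∈ CB X α ∧
    ∀ U : Set X, IsOpen U → x ∈ U → ∃ y ∈ U, y ≠ x ∧ y ∈ CB X α := by
  constructor
  · intro h
    exact mem_CB.1 h α (Order.lt_succ α)
  · rintro ⟨h1, h2⟩
    rw [mem_CB]
    intro β hβ
    rcases (Order.lt_succ_iff.1 hβ).eq_or_lt with rfl | h
    · exact ⟨h1, h2⟩
    · exact mem_CB.1 h1 β h

/-- Existence of the Cantor-Bendixson height. -/
theorem exists_rank (lt : X → X → Prop) (hwf : WellFounded lt)
    (hloc : ∀ x : X, ∃ U : Set X, IsOpen U ∧ x ∈ U ∧ ∀ y ∈ U, y ≠ x → lt y x) :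
    ∃ r : X → Ordinal.{u}, ∀ x β, x ∈ CB X β ↔ β ≤ r x := by
  have key : ∀ x : X, ∃ ρ : Ordinal.{u}, ∀ β, x ∈ CB X β ↔ β ≤ ρ := by
    intro x
    induction x using hwf.induction with
    | _ x ih =>
      choose! ρ hρ using ih
      let S : Set Ordinal.{u} := {β | ∀ U : Set X, IsOpen U → x ∈ U → ∃ y ∈ U, y ≠ x ∧ y ∈ CB X β}
      have hdown : ∀ β γ, β ≤ γ → γ ∈ S → β ∈ S := by
        intro β γ h hγ U hU hxU
        obtain ⟨y, hy, hne, hyC⟩ := hγ U hU hxU
        exact ⟨y, hy, hne, CB_anti h hyC⟩
      have hne : (Sᶜ).Nonempty := by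
        obtain ⟨U, hU, hxU, hUlt⟩ := hloc x
        refine ⟨⨆ y : X, Order.succ (ρ y), fun h => ?_⟩
        obtain ⟨y, hy, hyx, hyC⟩ := h U hU hxU
        have h1 := (hρ y (hUlt y hy hyx) _).1 hyC
        have h2 : Order.succ (ρ y) ≤ ⨆ y : X, Order.succ (ρ y) :=
          Ordinal.le_iSup (fun y : X => Order.succ (ρ y)) y
        exact absurd (h2.trans h1) (not_le.2 (Order.lt_succ (ρ y)))
      refine ⟨sInf Sᶜ, fun β => ?_⟩
      have hS : ∀ β, β < sInf Sᶜ → β ∈ S := fun β hβ => by
        by_contra h
        exact absurd (csInf_le' h) (not_le.2 hβ)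
      induction β using WellFoundedLT.induction with
      | _ β ihβ =>
        constructor
        · intro h
          by_contra hlt
          push Not at hlt
          exact csInf_mem hne (mem_CB.1 h _ hlt).2
        · intro h
          rw [mem_CB]
          intro γ hγ
          exact ⟨(ihβ γ hγ).2 (hγ.le.trans h), hS γ (hγ.trans_le h)⟩
  choose r hr using key
  exact ⟨r, hr⟩

theorem lt_rank {r : X → Ordinal.{u}} (hr : ∀ x β, x ∈ CB X β ↔ β ≤ r x) (x : X)
    (β : Ordinal.{u}) :
    β < r x ↔ ∀ U : Set X, IsOpen U → x ∈ U → ∃ y ∈ U, y ≠ x ∧ β ≤ r y := by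
  constructor
  · intro h U hU hxU
    obtain ⟨y, hy, hne, hyC⟩ := (mem_CB.1 ((hr x (r x)).2 le_rfl) β h).2 U hU hxU
    exact ⟨y, hy, hne, (hr y β).1 hyC⟩
  · intro h
    by_contra hlt
    push Not at hlt
    have h1 : x ∈ CB X (Order.succ (r x)) := by
      rw [mem_CB_succ]
      refine ⟨(hr x _).2 le_rfl, fun U hU hxU => ?_⟩
      obtain ⟨y, hy, hne, hyr⟩ := h U hU hxU
      exact ⟨y, hy, hne, (hr y _).2 (hlt.trans hyr)⟩
    exact absurd ((hr x _).1 h1) (not_le.2 (Order.lt_succ (r x)))

/-- Derivatives of open subspaces. -/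
theorem CB_subspace {U : Set X} (hU : IsOpen U) (α : Ordinal.{u}) (x : U) :
    x ∈ CB U α ↔ (x : X) ∈ CB X α := by
  induction α using WellFoundedLT.induction generalizing x with
  | _ α ih =>
    rw [mem_CB, mem_CB]
    refine forall_congr' fun β => forall_congr' fun hβ => ?_
    refine and_congr (ih β hβ x) ?_
    constructor
    · intro h V hV hxV
      obtain ⟨y, hy, hne, hyC⟩ := h (Subtype.val ⁻¹' V) (hV.preimage continuous_subtype_val) hxV
      exact ⟨y, hy, fun h => hne (Subtype.ext h), (ih β hβ y).1 hyC⟩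
    · intro h V hV hxV
      obtain ⟨y, ⟨hyU, hyV⟩, hne, hyC⟩ := h (U ∩ (Subtype.val '' V))
        (hU.inter (hU.isOpenMap_subtype_val V hV)) ⟨x.2, ⟨x, hxV, rfl⟩⟩
      obtain ⟨z, hz, rfl⟩ := hyV
      exact ⟨z, hz, fun h => hne (congrArg Subtype.val h), (ih β hβ z).2 hyC⟩

end General

/-! ### The lattice of final subsets -/

section Lattice

variable {P : Type u} [PartialOrder P]

theorem FS.ext {F G : FS P} (h : ∀ p, F.1 p = true ↔ G.1 p = true) : F = G :=
  Subtype.ext (funext fun p => Bool.eq_iff_iff.2 (h p))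

/-- Inclusion of final subsets. -/
def Sub (F G : FS P) : Prop := ∀ p, F.1 p = true → G.1 p = true

theorem Sub.refl (F : FS P) : Sub F F := fun _ h => h

theorem Sub.trans {F G H : FS P} (h : Sub F G) (h' : Sub G H) : Sub F H := fun p hp => h' p (h p hp)

theorem Sub.antisymm {F G : FS P} (h : Sub F G) (h' : Sub G F) : F = G :=
  FS.ext fun p => ⟨h p, h' p⟩

/-- Union. -/
def union (F G : FS P) : FS P :=
  ⟨fun p => F.1 p || G.1 p, fun x y hxy h => by
    rw [Bool.or_eq_true] at h ⊢
    exact h.imp (F.2 x y hxy) (G.2 x y hxy)⟩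

/-- Intersection. -/
def inter (F G : FS P) : FS P :=
  ⟨fun p => F.1 p && G.1 p, fun x y hxy h => by
    rw [Bool.and_eq_true] at h ⊢
    exact ⟨F.2 x y hxy h.1, G.2 x y hxy h.2⟩⟩

theorem mem_un {F G : FS P} {p : P} : (union F G).1 p = true ↔ F.1 p = true ∨ G.1 p = true :=
  Bool.or_eq_true _ _ |>.to_iff

theorem mem_in {F G : FS P} {p : P} : (inter F G).1 p = true ↔ F.1 p = true ∧ G.1 p = true :=
  Bool.and_eq_true _ _ |>.to_iff

/-- The relation `G` properly contains `F`. -/
def Sup (G F : FS P) : Prop := Sub F G ∧ G ≠ F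

/-- Ascending chain condition for final subsets. -/
theorem wf_sup (hP : WellQuasiOrdered (fun x y : P => x ≤ y)) : WellFounded (Sup (P := P)) := by
  rw [wellFounded_iff_isEmpty_descending_chain]
  refine ⟨fun ⟨f, hf⟩ => ?_⟩
  have hex : ∀ n, ∃ p, (f (n + 1)).1 p = true ∧ (f n).1 p ≠ true := by
    intro n
    by_contra! h
    exact (hf n).2 (Sub.antisymm h (hf n).1)
  choose p hp hp' using hex
  have hmono : ∀ m n, m ≤ n → Sub (f m) (f n) := by
    intro m n hmn
    induction n, hmn using Nat.le_induction with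
    | base => exact Sub.refl _
    | succ n _ ih => exact ih.trans (hf n).1
  obtain ⟨m, n, hmn, h⟩ := hP p
  exact hp' n ((f n).2 _ _ h (hmono (m + 1) n hmn _ (hp m)))

/-- Final subsets are finitely generated. -/
theorem exists_gen (hwf : WellFounded (Sup (P := P))) (F : FS P) :
    ∃ A : Finset P, (∀ a ∈ A, F.1 a = true) ∧ ∀ p, F.1 p = true → ∃ a ∈ A, a ≤ p := by
  classical
  let g : Finset P → FS P := fun A => ⟨fun p => decide (∃ a ∈ A, a ≤ p), fun x y hxy h => by
    rw [decide_eq_true_iff] at h ⊢
    obtain ⟨a, ha, hax⟩ := h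
    exact ⟨a, ha, hax.trans hxy⟩⟩
  have hg : ∀ A p, (g A).1 p = true ↔ ∃ a ∈ A, a ≤ p := fun A p => decide_eq_true_iff
  obtain ⟨G, ⟨A, hA, rfl⟩, hmax⟩ := hwf.has_min {G | ∃ A : Finset P, (∀ a ∈ A, F.1 a = true) ∧
    g A = G} ⟨g ∅, ∅, by simp, rfl⟩
  refine ⟨A, hA, fun p hp => ?_⟩
  by_contra hno
  refine hmax (g (insert p A)) ⟨insert p A, ?_, rfl⟩ ⟨?_, ?_⟩
  · intro a ha
    rcases Finset.mem_insert.1 ha with rfl | ha
    · exact hp
    · exact hA a ha
  · intro q hq
    rw [hg] at hq ⊢
    obtain ⟨a, ha, haq⟩ := hq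
    exact ⟨a, Finset.mem_insert_of_mem ha, haq⟩
  · intro h
    apply hno
    rw [← hg, ← h, hg]
    exact ⟨p, Finset.mem_insert_self p A, le_rfl⟩

/-- The clopen set of the final subsets containing `F`. -/
def up (F : FS P) : Set (FS P) := {G | Sub F G}

theorem continuous_eval (p : P) : Continuous fun F : FS P => F.1 p :=
  (continuous_apply p).comp continuous_subtype_val

theorem isClopen_up (hwf : WellFounded (Sup (P := P))) (F : FS P) : IsClopen (up F) := by
  obtain ⟨A, hA, hA'⟩ := exists_gen hwf F
  have : up F = ⋂ a ∈ A, (fun G : FS P => G.1 a) ⁻¹' {true} := by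
    ext G
    simp only [mem_iInter, mem_preimage, mem_singleton_iff]
    constructor
    · intro h a ha
      exact h a (hA a ha)
    · intro h p hp
      obtain ⟨a, ha, hap⟩ := hA' p hp
      exact G.2 a p hap (h a ha)
  rw [this]
  exact isClopen_biInter_finset fun a _ => (isClopen_discrete _).preimage (continuous_eval a)

instance : T2Space (FS P) := inferInstanceAs (T2Space {f : P → Bool // ∀ x y : P, x ≤ y → f x = true → f y = true})

instance : CompactSpace (FS P) := by
  have h : IsClosed {f : P → Bool | ∀ x y : P, x ≤ y → f x = true → f y = true} := by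
    simp only [ofPred_forall]
    refine isClosed_iInter fun x => isClosed_iInter fun y => isClosed_iInter fun _ => ?_
    have : {f : P → Bool | f x = true → f y = true} =
        ((fun f : P → Bool => f x) ⁻¹' {true})ᶜ ∪ (fun f : P → Bool => f y) ⁻¹' {true} := by
      ext f
      show (f x = true → f y = true) ↔ (¬ f x = true ∨ f y = true)
      tauto
    rw [this]
    exact ((isClopen_discrete _).preimage (continuous_apply x)).compl.isClosed.union
      ((isClopen_discrete _).preimage (continuous_apply y)).isClosed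
  exact isCompact_iff_compactSpace.1 h.isCompact

/-- The description of the height in terms of the lattice. -/
theorem lt_rank_iff (hwf : WellFounded (Sup (P := P))) {r : FS P → Ordinal.{u}}
    (hr : ∀ x β, x ∈ CB (FS P) β ↔ β ≤ r x) (F : FS P) (β : Ordinal.{u}) :
    β < r F ↔ ∀ K : Finset P, (∀ k ∈ K, F.1 k ≠ true) →
      ∃ G, Sup G F ∧ (∀ k ∈ K, G.1 k ≠ true) ∧ β ≤ r G := by
  classical
  rw [lt_rank hr]
  constructor
  · intro h K hK
    have hU : IsOpen (up F ∩ ⋂ k ∈ K, ((fun G : FS P => G.1 k) ⁻¹' {true})ᶜ) :=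
      (isClopen_up hwf F).isOpen.inter
        (isClopen_biInter_finset fun k _ =>
          ((isClopen_discrete _).preimage (continuous_eval k)).compl).isOpen
    obtain ⟨G, ⟨hG1, hG2⟩, hne, hβ⟩ := h _ hU ⟨Sub.refl F, by simpa using hK⟩
    exact ⟨G, ⟨hG1, hne⟩, by simpa using hG2, hβ⟩
  · intro h U hU hFU
    obtain ⟨V, hV, rfl⟩ := isOpen_induced_iff.1 hU
    obtain ⟨I, u, hu, hIV⟩ := isOpen_pi_iff.1 hV F.1 hFU
    obtain ⟨G, hG, hGK, hβ⟩ := h (I.filter fun p => F.1 p ≠ true) (by simp)
    refine ⟨G, hIV fun i hi => ?_, hG.2, hβ⟩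
    have : G.1 i = F.1 i := by
      rw [Bool.eq_iff_iff]
      constructor
      · intro h
        by_contra hF
        exact hGK i (by simp only [Finset.mem_filter]; exact ⟨hi, hF⟩) h
      · exact hG.1 i
    rw [this]
    exact (hu i hi).2

/-- The modularity property of the height. -/
theorem modular (hwf : WellFounded (Sup (P := P))) {r : FS P → Ordinal.{u}}
    (hr : ∀ F (β : Ordinal.{u}), β < r F ↔ ∀ K : Finset P, (∀ k ∈ K, F.1 k ≠ true) →
      ∃ G, Sup G F ∧ (∀ k ∈ K, G.1 k ≠ true) ∧ β ≤ r G) (H : FS P) :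
    ∀ G : FS P, (r (union H G) ≤ r G → r H ≤ r (inter H G)) ∧
      (r (union H G) < r G → r H < r (inter H G)) := by
  classical
  induction H using hwf.induction with
  | _ H ihH =>
    intro G
    induction G using hwf.induction with
    | _ G ihG =>
      -- the finite set isolating `H ∪ G`
      obtain ⟨K₀, hK₀, hK₀''⟩ : ∃ K₀ : Finset P, (∀ k ∈ K₀, (union H G).1 k ≠ true) ∧
          ∀ M, Sup M (union H G) → (∀ k ∈ K₀, M.1 k ≠ true) → r M < r (union H G) := by
        have h := (hr (union H G) (r (union H G))).not.1 (lt_irrefl _)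
        push Not at h
        obtain ⟨K₀, h1, h2⟩ := h
        exact ⟨K₀, h1, fun M hM hMK => h2 M hM hMK⟩
      have hK₀H : ∀ k ∈ K₀, H.1 k ≠ true := fun k hk h => hK₀ k hk (mem_un.2 (Or.inl h))
      have hK₀G : ∀ k ∈ K₀, G.1 k ≠ true := fun k hk h => hK₀ k hk (mem_un.2 (Or.inr h))
      constructor
      · intro hle
        refine le_of_forall_lt fun β hβ => ?_
        rw [hr]
        by_contra hcon
        push Not at hcon
        obtain ⟨K, hK, hKno⟩ := hcon
        obtain ⟨H', hH', hH'K, hβ'⟩ := (hr H β).1 hβ ((K.filter fun p => H.1 p ≠ true) ∪ K₀) (by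
          intro k hk
          rcases Finset.mem_union.1 hk with hk | hk
          · exact (Finset.mem_filter.1 hk).2
          · exact hK₀H k hk)
        have hsub : Sub (union H G) (union H' G) := fun p hp =>
          mem_un.2 ((mem_un.1 hp).imp (hH'.1 p) id)
        have hK₀' : ∀ k ∈ K₀, (union H' G).1 k ≠ true := by
          intro k hk h
          rcases mem_un.1 h with h | h
          · exact hH'K k (Finset.mem_union_right _ hk) h
          · exact hK₀G k hk h
        have hsub2 : Sub (inter H G) (inter H' G) := fun p hp =>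
          mem_in.2 ⟨hH'.1 p (mem_in.1 hp).1, (mem_in.1 hp).2⟩
        by_cases hcase : inter H' G = inter H G
        · -- the union is properly larger
          have hne : union H' G ≠ union H G := by
            intro h
            apply hH'.2
            refine Sub.antisymm (fun p hp => ?_) hH'.1
            have h1 : (union H G).1 p = true := by rw [← h]; exact mem_un.2 (Or.inl hp)
            rcases mem_un.1 h1 with h2 | h2
            · exact h2
            · have h3 : (inter H G).1 p = true := by rw [← hcase]; exact mem_in.2 ⟨hp, h2⟩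
              exact (mem_in.1 h3).1
          have h1 := hK₀'' _ ⟨hsub, hne⟩ hK₀'
          have h2 := (ihH H' hH' G).2 (h1.trans_le hle)
          rw [hcase] at h2
          have h3 : β < r (inter H G) := hβ'.trans_lt h2
          obtain ⟨M, hM1, hM2, hM3⟩ := (hr (inter H G) β).1 h3 K hK
          exact absurd hM3 (not_le.2 (hKno M hM1 hM2))
        · have h1 : r (union H' G) ≤ r (union H G) := by
            by_cases h : union H' G = union H G
            · rw [h]
            · exact (hK₀'' _ ⟨hsub, h⟩ hK₀').le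
          have h2 := (ihH H' hH' G).1 (h1.trans hle)
          have h3 := hKno (inter H' G) ⟨hsub2, hcase⟩ (by
            intro k hk h
            obtain ⟨h4, h5⟩ := mem_in.1 h
            by_cases hkH : H.1 k = true
            · exact hK k hk (mem_in.2 ⟨hkH, h5⟩)
            · exact hH'K k (Finset.mem_union_left _ (Finset.mem_filter.2 ⟨hk, hkH⟩)) h4)
          exact absurd (hβ'.trans h2) (not_le.2 h3)
      · intro hlt
        rw [hr]
        by_contra hcon
        push Not at hcon
        obtain ⟨K, hK, hKno⟩ := hcon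
        obtain ⟨G', hG', hG'K, hγ⟩ := (hr G _).1 hlt ((K.filter fun p => G.1 p ≠ true) ∪ K₀) (by
          intro k hk
          rcases Finset.mem_union.1 hk with hk | hk
          · exact (Finset.mem_filter.1 hk).2
          · exact hK₀G k hk)
        have hsub : Sub (union H G) (union H G') := fun p hp =>
          mem_un.2 ((mem_un.1 hp).imp id (hG'.1 p))
        have hK₀' : ∀ k ∈ K₀, (union H G').1 k ≠ true := by
          intro k hk h
          rcases mem_un.1 h with h | h
          · exact hK₀H k hk h
          · exact hG'K k (Finset.mem_union_right _ hk) h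
        have hsub2 : Sub (inter H G) (inter H G') := fun p hp =>
          mem_in.2 ⟨(mem_in.1 hp).1, hG'.1 p (mem_in.1 hp).2⟩
        by_cases hcase : inter H G' = inter H G
        · have hne : union H G' ≠ union H G := by
            intro h
            apply hG'.2
            refine Sub.antisymm (fun p hp => ?_) hG'.1
            have h1 : (union H G).1 p = true := by rw [← h]; exact mem_un.2 (Or.inr hp)
            rcases mem_un.1 h1 with h2 | h2
            · have h3 : (inter H G).1 p = true := by rw [← hcase]; exact mem_in.2 ⟨h2, hp⟩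
              exact (mem_in.1 h3).2
            · exact h2
          have h1 := hK₀'' _ ⟨hsub, hne⟩ hK₀'
          have h2 := (ihG G' hG').2 (h1.trans_le hγ)
          rw [hcase] at h2
          obtain ⟨M, hM1, hM2, hM3⟩ := (hr (inter H G) (r H)).1 h2 K hK
          exact absurd hM3 (not_le.2 (hKno M hM1 hM2))
        · have h1 : r (union H G') ≤ r (union H G) := by
            by_cases h : union H G' = union H G
            · rw [h]
            · exact (hK₀'' _ ⟨hsub, h⟩ hK₀').le
          have h2 := (ihG G' hG').1 (h1.trans hγ)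
          have h3 := hKno (inter H G') ⟨hsub2, hcase⟩ (by
            intro k hk h
            obtain ⟨h4, h5⟩ := mem_in.1 h
            by_cases hkG : G.1 k = true
            · exact hK k hk (mem_in.2 ⟨h4, hkG⟩)
            · exact hG'K k (Finset.mem_union_left _ (Finset.mem_filter.2 ⟨hk, hkG⟩)) h5)
          exact absurd h2 (not_le.2 h3)

/-- For well-quasi-ordered `P` the space `FS(P)` is canonically Skula. -/
theorem canonicallySkula (hP : WellQuasiOrdered (fun x y : P => x ≤ y)) :
    CanonicallySkula (FS P) := by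
  classical
  have hwf := wf_sup hP
  obtain ⟨r, hr⟩ := exists_rank (Sup (P := P)) hwf
    (fun F => ⟨up F, (isClopen_up hwf F).isOpen, Sub.refl F, fun G hG hne => ⟨hG, hne⟩⟩)
  have hmod := modular hwf (lt_rank_iff hwf hr)
  let U : FS P → Set (FS P) := fun F =>
    {G | Sub F G ∧ ∀ H, Sub F H → Sub H G → H ≠ F → r H < r F}
  have hUclopen : ∀ F, IsClopen (U F) := by
    intro F
    -- the set of the bad points
    let Z : Set (FS P) := {H | Sub F H ∧ H ≠ F ∧ r F ≤ r H}
    have hZ : IsCompact Z := by
      have hcl : IsClosed Z := by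
        rw [← isOpen_compl_iff, isOpen_iff_forall_mem_open]
        intro G hG
        by_cases hFG : Sub F G
        · -- a neighbourhood of `G` in which the height is at most `r G`
          by_cases hGF : G = F
          · have h := (lt_rank hr F (r F)).not.1 (lt_irrefl _)
            push Not at h
            obtain ⟨V, hV, hFV, hVr⟩ := h
            refine ⟨V, fun H hH hHZ => ?_, hV, hGF ▸ hFV⟩
            exact absurd hHZ.2.2 (not_le.2 (hVr H hH hHZ.2.1))
          · have hlt : r G < r F := by
              by_contra h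
              exact hG ⟨hFG, hGF, not_lt.1 h⟩
            have h := (lt_rank hr G (r G)).not.1 (lt_irrefl _)
            push Not at h
            obtain ⟨V, hV, hGV, hVr⟩ := h
            refine ⟨V, fun H hH hHZ => ?_, hV, hGV⟩
            by_cases hHG : H = G
            · rw [hHG] at hHZ
              exact absurd hHZ.2.2 (not_le.2 hlt)
            · exact absurd hHZ.2.2 (not_le.2 ((hVr H hH hHG).trans hlt))
        · refine ⟨(up F)ᶜ, fun H hH hHZ => hH hHZ.1, (isClopen_up hwf F).compl.isOpen, hFG⟩
      exact hcl.isCompact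
    obtain ⟨t, ht⟩ := hZ.elim_finite_subcover (fun H : Z => up (H : FS P))
      (fun H => (isClopen_up hwf _).isOpen)
      (fun H hH => mem_iUnion.2 ⟨⟨H, hH⟩, Sub.refl H⟩)
    have hUeq : U F = up F \ ⋃ H ∈ t, up (H : FS P) := by
      ext G
      constructor
      · rintro ⟨h1, h2⟩
        refine ⟨h1, fun h3 => ?_⟩
        obtain ⟨H, hH, hHG⟩ := mem_iUnion₂.1 h3
        exact absurd H.2.2.2 (not_le.2 (h2 H H.2.1 hHG H.2.2.1))
      · rintro ⟨h1, h2⟩
        refine ⟨h1, fun H hFH hHG hne => ?_⟩
        by_contra hlt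
        obtain ⟨H', hH', hH'H⟩ := mem_iUnion₂.1 (ht ⟨hFH, hne, not_lt.1 hlt⟩)
        exact h2 (mem_iUnion₂.2 ⟨H', hH', Sub.trans hH'H hHG⟩)
    rw [hUeq]
    exact (isClopen_up hwf F).inter
      (IsClopen.compl (isClopen_biUnion_finset fun H _ => isClopen_up hwf _))
  have hself : ∀ F, F ∈ U F := fun F =>
    ⟨Sub.refl F, fun H h1 h2 hne => absurd (Sub.antisymm h2 h1) hne⟩
  have htrans : ∀ F G, G ∈ U F → U G ⊆ U F := by
    intro F G hG W hW
    refine ⟨hG.1.trans hW.1, fun H hFH hHW hne => ?_⟩
    by_contra hlt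
    have hFH' : r F ≤ r H := not_lt.1 hlt
    by_cases hGF : G = F
    · rw [hGF] at hW
      exact hlt (hW.2 H hFH hHW hne)
    -- `H` is not contained in `G`
    have hHG : ¬ Sub H G := fun h => hlt (hG.2 H hFH h hne)
    have h1 : r (union H G) < r G := by
      refine hW.2 (union H G) (fun p hp => mem_un.2 (Or.inr hp)) (fun p hp => ?_) ?_
      · rcases mem_un.1 hp with h | h
        · exact hHW p h
        · exact hW.1 p h
      · intro h
        exact hHG fun p hp => by rw [← h]; exact mem_un.2 (Or.inl hp)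
    have h2 := (hmod H G).2 h1
    have h3 : r (inter H G) ≤ r F := by
      by_cases h : inter H G = F
      · rw [h]
      · exact (hG.2 (inter H G) (fun p hp => mem_in.2 ⟨hFH p hp, hG.1 p hp⟩)
          (fun p hp => (mem_in.1 hp).2) h).le
    exact absurd (h2.trans_le h3) (not_lt.2 hFH')
  refine ⟨U, hUclopen, hself, ?_, htrans, ?_⟩
  · intro F G hne
    by_contra! h
    exact hne (Sub.antisymm h.2.1 h.1.1)
  · intro F
    refine ⟨(hUclopen F).isClosed.isCompact, hself F, r F, ?_, ?_⟩
    · ext ⟨G, hG⟩
      rw [CB_subspace (hUclopen F).isOpen, hr]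
      constructor
      · intro h
        by_contra hne
        exact absurd h (not_le.2 (hG.2 G hG.1 (Sub.refl G) fun h => hne (Subtype.ext h)))
      · intro h
        have : G = F := congrArg Subtype.val h
        show r F ≤ r G
        rw [this]
    · rw [eq_empty_iff_forall_notMem]
      rintro ⟨G, hG⟩ h
      rw [CB_subspace (hUclopen F).isOpen, hr] at h
      have h1 : r F < r G := Order.succ_le_iff.1 h
      by_cases hne : G = F
      · rw [hne] at h1; exact lt_irrefl _ h1
      · exact absurd h1 (not_lt.2 (hG.2 G hG.1 (Sub.refl G) hne).le)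

end Lattice

/-- Well-founded posets without infinite antichains are well-quasi-ordered. -/
theorem wqo_of_narrow {P : Type u} [PartialOrder P] (hwf : WellFounded (fun x y : P => x < y))
    (hnarrow : ∀ s : Set P, IsAntichain (fun x y => x ≤ y) s → s.Finite) :
    WellQuasiOrdered (fun x y : P => x ≤ y) := by
  have h : WellQuasiOrderedLE P := wellQuasiOrderedLE_iff.2 ⟨⟨hwf⟩, hnarrow⟩
  exact h.wqo

end Pool.Agent.Q180.Skula
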